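import Mathlib
import Pool.Agent.U450.SV.Stm

/-!
# Project SV, package UNI (helper796)

Acyclicity and universal property of the induced modules `U(g) ⊗_{U(g_0)} N`.
-/

set_option autoImplicit false

universe u

namespace Pool.Agent.U796.SV.UNI

open Pool.Agent.U450.SV

section

variable {k g0 g1 N : Type u} [Field k] [AddCommGroup g0] [Module k g0]
    [AddCommGroup g1] [Module k g1] [AddCommGroup N] [Module k N]

/-- contraction -/
def iota (k : Type u) [Field k] (m : ℕ) (N : Type u) [AddCommGroup N] [Module k N] (i : Fin m) :
    (Finset (Fin m) → N) →ₗ[k] (Finset (Fin m) → N) where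
  toFun v T := if i ∈ T then 0 else ((-1 : k) ^ (T.filter (fun j => j < i)).card) • v (insert i T)
  map_add' v w := by
    funext T
    by_cases h : i ∈ T <;> simp [h]
  map_smul' c v := by
    funext T
    by_cases h : i ∈ T <;> simp [h, smul_comm c]

theorem eop_apply (m : ℕ) (i : Fin m) (v : Finset (Fin m) → N) (T : Finset (Fin m)) :
    eop k m N i v T =
      if i ∈ T then ((-1 : k) ^ (T.filter (fun j => j < i)).card) • v (T.erase i) else 0 := rfl

theorem iota_apply (m : ℕ) (i : Fin m) (v : Finset (Fin m) → N) (T : Finset (Fin m)) :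
    iota k m N i v T =
      if i ∈ T then 0 else ((-1 : k) ^ (T.filter (fun j => j < i)).card) • v (insert i T) := rfl

theorem sign_sq (n : ℕ) (v : N) : ((-1 : k) ^ n) • ((-1 : k) ^ n) • v = v := by
  rw [smul_smul, ← mul_pow]
  simp

theorem eop_iota_same (m : ℕ) (i : Fin m) (v : Finset (Fin m) → N) :
    eop k m N i (iota k m N i v) + iota k m N i (eop k m N i v) = v := by
  funext T
  simp only [Pi.add_apply, eop_apply, iota_apply]
  by_cases h : i ∈ T
  · have h1 : (T.erase i).filter (fun j => j < i) = T.filter (fun j => j < i) := by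
      ext a
      simp only [Finset.mem_filter, Finset.mem_erase]
      constructor
      · rintro ⟨⟨_, h1⟩, h2⟩; exact ⟨h1, h2⟩
      · rintro ⟨h1, h2⟩; exact ⟨⟨ne_of_lt h2, h1⟩, h2⟩
    simp only [h, if_true, Finset.mem_erase, ne_eq, not_true_eq_false, false_and, if_false, h1,
      Finset.insert_erase h, add_zero]
    exact sign_sq _ _
  · have h1 : (insert i T).filter (fun j => j < i) = T.filter (fun j => j < i) := by
      ext a
      simp only [Finset.mem_filter, Finset.mem_insert]
      constructor
      · rintro ⟨h1 | h1, h2⟩
        · exact absurd h2 (by simp [h1])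
        · exact ⟨h1, h2⟩
      · rintro ⟨h1, h2⟩; exact ⟨Or.inr h1, h2⟩
    simp only [h, if_false, Finset.mem_insert_self, if_true, h1, Finset.erase_insert h, zero_add]
    exact sign_sq _ _

theorem eop_iota_ne (m : ℕ) (i j : Fin m) (hij : i ≠ j) (v : Finset (Fin m) → N) :
    eop k m N j (iota k m N i v) + iota k m N i (eop k m N j v) = 0 := by
  funext T
  simp only [Pi.add_apply, eop_apply, iota_apply, Pi.zero_apply]
  by_cases hj : j ∈ T
  · by_cases hi : i ∈ T
    · have : i ∈ T.erase j := Finset.mem_erase.2 ⟨hij, hi⟩
      simp [hj, hi, this]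
    · have h1 : i ∉ T.erase j := fun h => hi (Finset.mem_of_mem_erase h)
      have h2 : j ∈ insert i T := Finset.mem_insert_of_mem hj
      have h3 : (insert i T).erase j = insert i (T.erase j) := by
        rw [Finset.erase_insert_of_ne hij]
      simp only [hj, hi, h1, h2, if_true, if_false, h3]
      rcases lt_or_gt_of_ne hij with hlt | hlt
      · have e1 : (T.erase j).filter (fun a => a < i) = T.filter (fun a => a < i) := by
          ext a
          simp only [Finset.mem_filter, Finset.mem_erase]
          constructor
          · rintro ⟨⟨_, h1⟩, h2⟩; exact ⟨h1, h2⟩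
          · rintro ⟨h1, h2⟩; exact ⟨⟨ne_of_lt (h2.trans hlt), h1⟩, h2⟩
        have e2 : ((insert i T).filter (fun a => a < j)).card
            = (T.filter (fun a => a < j)).card + 1 := by
          rw [Finset.filter_insert, if_pos hlt, Finset.card_insert_of_notMem]
          simp [hi]
        rw [e1, e2, pow_succ]
        simp only [smul_smul]
        rw [← add_smul]
        have : (-1 : k) ^ (T.filter (fun a => a < j)).card * (-1) ^ (T.filter (fun a => a < i)).card +
            (-1) ^ (T.filter (fun a => a < i)).card *
              ((-1) ^ (T.filter (fun a => a < j)).card * -1) = 0 := by ring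
        rw [this, zero_smul]
      · have e1 : (insert i T).filter (fun a => a < j) = T.filter (fun a => a < j) := by
          rw [Finset.filter_insert, if_neg (by simpa using hlt.le)]
        have e2 : (T.filter (fun a => a < i)).card
            = ((T.erase j).filter (fun a => a < i)).card + 1 := by
          rw [Finset.filter_erase, Finset.card_erase_of_mem (by simp [hj, hlt]),
            Nat.sub_add_cancel]
          exact Finset.card_pos.2 ⟨j, by simp [hj, hlt]⟩
        rw [e1, e2, pow_succ]
        simp only [smul_smul]
        rw [← add_smul]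
        have : (-1 : k) ^ (T.filter (fun a => a < j)).card *
              (-1) ^ ((T.erase j).filter (fun a => a < i)).card +
            (-1) ^ ((T.erase j).filter (fun a => a < i)).card * -1 *
              ((-1) ^ (T.filter (fun a => a < j)).card) = 0 := by ring
        rw [this, zero_smul]
  · have h2 : j ∉ insert i T := by
      simp [hj, hij.symm]
    simp [hj, h2]

variable {L : LieSuper k g0 g1} {m : ℕ} {y : Module.Basis (Fin m) k g1}
    {n0 : g0 →ₗ[k] Module.End k N} {ρ : SMod L (Finset (Fin m) → N)}

/-- exterior multiplication by `x` -/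
noncomputable def ex (y : Module.Basis (Fin m) k g1) (x : g1) :
    (Finset (Fin m) → N) →ₗ[k] (Finset (Fin m) → N) :=
  ∑ i, (y.repr x i) • eop k m N i

theorem ex_iota (x : g1) (i : Fin m) (v : Finset (Fin m) → N) :
    ex y x (iota k m N i v) + iota k m N i (ex y x v) = (y.repr x i) • v := by
  unfold ex
  simp only [LinearMap.sum_apply, LinearMap.smul_apply, map_sum, map_smul]
  rw [← Finset.sum_add_distrib, Finset.sum_eq_single i]
  · rw [← smul_add, eop_iota_same]
  · intro j _ hj
    rw [← smul_add, eop_iota_ne m i j hj.symm, smul_zero]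
  · simp

theorem r1_expand (s1 : g1 →ₗ[k] Module.End k N) (x : g1) (y : Module.Basis (Fin m) k g1) (v : N) :
    s1 x v = ∑ i, (y.repr x i) • s1 (y i) v := by
  conv_lhs => rw [← y.sum_repr x, map_sum, LinearMap.sum_apply]
  exact Finset.sum_congr rfl fun i _ => by rw [map_smul, LinearMap.smul_apply]

theorem r1_sub_ex (hI : IsInd L m y n0 ρ) (x : g1) (d : ℕ) (v : Finset (Fin m) → N)
    (hv : ∀ T : Finset (Fin m), d ≤ T.card → v T = 0) (T : Finset (Fin m)) (hT : d ≤ T.card) :
    ρ.r1 x v T = ex y x v T := by
  rcases d with _ | d
  · have : v = 0 := by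
      funext T
      exact hv T (Nat.zero_le _)
    simp [this]
  · have hv' : v ∈ filt k m N d := fun T hT => hv T hT
    rw [r1_expand ρ.r1 x y v]
    unfold ex
    simp only [LinearMap.sum_apply, LinearMap.smul_apply, Finset.sum_apply, Pi.smul_apply]
    refine Finset.sum_congr rfl fun i _ => ?_
    have h := hI.2.2.2.1 i d v hv' T hT
    rw [Pi.sub_apply, sub_eq_zero] at h
    rw [h]

theorem r1_sq (h2 : (2 : k) ≠ 0) (ρ : SMod L N) (x : g1) (hx : L.b11 x x = 0) (v : N) :
    ρ.r1 x (ρ.r1 x v) = 0 := by
  have h := congrArg (fun f : Module.End k N => f v) (ρ.h11 x x)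
  simp only [hx, map_zero, LinearMap.zero_apply, LinearMap.add_apply, Module.End.mul_apply] at h
  rw [← two_smul k] at h
  exact (smul_eq_zero.1 h.symm).resolve_left h2

theorem acy_aux (h2 : (2 : k) ≠ 0) (hI : IsInd L m y n0 ρ) (x : g1) (hx : L.b11 x x = 0)
    (i : Fin m) (hi : y.repr x i ≠ 0) (d : ℕ) :
    ∀ z : Finset (Fin m) → N, (∀ T : Finset (Fin m), d ≤ T.card → z T = 0) →
      ρ.r1 x z = 0 → z ∈ LinearMap.range (ρ.r1 x) := by
  induction d with
  | zero =>
    intro z hz _
    have : z = 0 := by
      funext T
      exact hz T (Nat.zero_le _)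
    rw [this]
    exact Submodule.zero_mem _
  | succ d ih =>
    intro z hz hz0
    set t : Finset (Fin m) → N := fun T => if T.card = d then z T else 0 with ht
    -- `ex t = 0`
    have hext : ex y x t = 0 := by
      funext T
      by_cases hT : T.card = d + 1
      · have h1 : ex y x t T = ex y x z T := by
          unfold ex
          simp only [LinearMap.sum_apply, LinearMap.smul_apply, Finset.sum_apply, Pi.smul_apply,
            eop_apply]
          refine Finset.sum_congr rfl fun j _ => ?_
          by_cases hj : j ∈ T
          · have : (T.erase j).card = d := by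
              rw [Finset.card_erase_of_mem hj, hT]; rfl
            simp [hj, ht, this]
          · simp [hj]
        rw [h1, ← r1_sub_ex hI x (d + 1) z hz T hT.ge, hz0]
      · unfold ex
        simp only [LinearMap.sum_apply, LinearMap.smul_apply, Finset.sum_apply, Pi.smul_apply,
            eop_apply, Pi.zero_apply]
        refine Finset.sum_eq_zero fun j _ => ?_
        by_cases hj : j ∈ T
        · have : (T.erase j).card ≠ d := by
            intro h
            apply hT
            rw [← h, Finset.card_erase_of_mem hj, Nat.sub_add_cancel]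
            exact Finset.card_pos.2 ⟨j, hj⟩
          simp only [hj, ht, this, if_true, if_false, smul_zero]
        · simp [hj]
    set w : Finset (Fin m) → N := (y.repr x i)⁻¹ • iota k m N i t with hw
    have hexw : ex y x w = t := by
      have h := ex_iota (k := k) (y := y) x i t
      rw [hext, map_zero, add_zero] at h
      rw [hw, map_smul, h, smul_smul, inv_mul_cancel₀ hi, one_smul]
    have hwf : ∀ T : Finset (Fin m), d ≤ T.card → w T = 0 := by
      intro T hT
      simp only [hw, Pi.smul_apply, iota_apply]
      by_cases hj : i ∈ T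
      · simp [hj]
      · have : (insert i T).card ≠ d := by
          rw [Finset.card_insert_of_notMem hj]; omega
        simp only [hj, ht, this, if_false, smul_zero]
    have hsub : ∀ T : Finset (Fin m), d ≤ T.card → (z - ρ.r1 x w) T = 0 := by
      intro T hT
      rw [Pi.sub_apply, r1_sub_ex hI x d w hwf T hT, hexw]
      simp only [ht]
      by_cases h : T.card = d
      · simp [h]
      · simp [h, hz T (by omega)]
    obtain ⟨v, hv⟩ := ih (z - ρ.r1 x w) hsub (by
      rw [map_sub, hz0, r1_sq h2 ρ x hx, sub_zero])
    refine ⟨v + w, ?_⟩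
    rw [map_add, hv, sub_add_cancel]

end

/-- Induced modules are acyclic. -/
theorem t_ACY : S_ACY.{u} := by
  intro k g0 g1 N _ _ _ _ _ _ _ h2 L m y n0 ρ hI x hx hx0
  have : ∃ i, y.repr x i ≠ 0 := by
    by_contra h
    push Not at h
    apply hx0
    have : y.repr x = 0 := by
      ext i
      exact h i
    simpa using this
  obtain ⟨i, hi⟩ := this
  apply le_antisymm
  · intro z hz
    refine acy_aux h2 hI x hx i hi (m + 1) z ?_ (LinearMap.mem_ker.1 hz)
    intro T hT
    exfalso
    have h := Finset.card_le_univ T
    rw [Fintype.card_fin] at h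
    omega
  · rintro z ⟨v, rfl⟩
    rw [LinearMap.mem_ker]
    exact r1_sq h2 ρ x hx v

section

variable {k g0 g1 N M : Type u} [Field k] [AddCommGroup g0] [Module k g0]
    [AddCommGroup g1] [Module k g1] [AddCommGroup N] [Module k N] [AddCommGroup M] [Module k M]
    {m : ℕ}

/-- the map on `y_S ⊗ N` -/
noncomputable def psi (y : Module.Basis (Fin m) k g1) (s1 : g1 →ₗ[k] Module.End k M)
    (φ : N →ₗ[k] M) (S : Finset (Fin m)) : N →ₗ[k] M :=
  (((S.sort (· ≤ ·)).map (fun i => s1 (y i))).prod : Module.End k M) ∘ₗ φ

theorem psi_empty (y : Module.Basis (Fin m) k g1) (s1 : g1 →ₗ[k] Module.End k M)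
    (φ : N →ₗ[k] M) : psi y s1 φ ∅ = φ := by
  unfold psi
  ext v
  simp

theorem psi_insert (y : Module.Basis (Fin m) k g1) (s1 : g1 →ₗ[k] Module.End k M)
    (φ : N →ₗ[k] M) (S : Finset (Fin m)) (i : Fin m) (hi : ∀ j ∈ S, i < j) (n : N) :
    psi y s1 φ (insert i S) n = s1 (y i) (psi y s1 φ S n) := by
  unfold psi
  rw [Finset.sort_insert (· ≤ ·) (fun b hb => (hi b hb).le) (fun h => lt_irrefl _ (hi i h))]
  simp

/-- the extension -/
noncomputable def Phi (y : Module.Basis (Fin m) k g1) (s1 : g1 →ₗ[k] Module.End k M)
    (φ : N →ₗ[k] M) : (Finset (Fin m) → N) →ₗ[k] M :=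
  ∑ S, psi y s1 φ S ∘ₗ LinearMap.proj S

theorem Phi_single (y : Module.Basis (Fin m) k g1) (s1 : g1 →ₗ[k] Module.End k M)
    (φ : N →ₗ[k] M) (S : Finset (Fin m)) (n : N) :
    Phi y s1 φ (Pi.single S n) = psi y s1 φ S n := by
  unfold Phi
  rw [LinearMap.sum_apply, Finset.sum_eq_single S]
  · simp
  · intro T _ hT
    simp [Pi.single_eq_of_ne hT]
  · simp

end

/-- Universal property of induced modules. -/
theorem t_UNI : S_UNI.{u} := by
  intro k g0 g1 N _ _ _ _ _ _ _ h2 L m y n0 ρ hI M _ _ s0 s1 hs0 hs01 hs11 φ hφ
  obtain ⟨hIσ, hI0, hI1, hIe, hIf⟩ := hI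
  set Φ := Phi y s1 φ with hΦ
  have hA : ∀ (i : Fin m) (S : Finset (Fin m)) (n : N), (∀ j ∈ S, i < j) →
      Φ (ρ.r1 (y i) (Pi.single S n)) = s1 (y i) (Φ (Pi.single S n)) := by
    intro i S n hi
    rw [hI1 i S n hi, hΦ, Phi_single, Phi_single, psi_insert y s1 φ S i hi]
  have key : ∀ (d : ℕ) (S : Finset (Fin m)), S.card = d → ∀ n : N,
      (∀ a, Φ (ρ.r0 a (Pi.single S n)) = s0 a (Φ (Pi.single S n))) ∧
      (∀ i, Φ (ρ.r1 (y i) (Pi.single S n)) = s1 (y i) (Φ (Pi.single S n))) := by
    intro d
    induction d using Nat.strong_induction_on with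
    | _ d ih =>
    intro S hS n
    rcases S.eq_empty_or_nonempty with rfl | hne
    · refine ⟨fun a => ?_, fun i => hA i ∅ n (by simp)⟩
      rw [hI0, hΦ, Phi_single, Phi_single, psi_empty, hφ]
    · set j := S.min' hne with hj
      have hjS : j ∈ S := S.min'_mem hne
      set S' := S.erase j with hS'
      have hjS' : ∀ l ∈ S', j < l := by
        intro l hl
        have hl' := Finset.mem_erase.1 hl
        exact lt_of_le_of_ne (S.min'_le l hl'.2) (Ne.symm hl'.1)
      have hins : insert j S' = S := Finset.insert_erase hjS
      have hcard : S'.card + 1 = d := by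
        rw [hS', Finset.card_erase_of_mem hjS, hS, Nat.sub_add_cancel]
        rw [← hS]
        exact Finset.card_pos.2 hne
      set w : Finset (Fin m) → N := Pi.single S' n with hw
      have hyw : ρ.r1 (y j) w = Pi.single S n := by
        rw [hw, hI1 j S' n hjS', hins]
      have hwf : w ∈ filt k m N S'.card := by
        intro T hT
        rw [hw, Pi.single_eq_of_ne]
        rintro rfl
        exact lt_irrefl _ hT
      -- equivariance on `filt`
      have hF0 : ∀ v ∈ filt k m N S'.card, ∀ a, Φ (ρ.r0 a v) = s0 a (Φ v) := by
        intro v hv a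
        have hsum : v = ∑ T, Pi.single T (v T) := (Finset.univ_sum_single v).symm
        rw [hsum]
        simp only [map_sum]
        refine Finset.sum_congr rfl fun T _ => ?_
        by_cases hT : S'.card < T.card
        · rw [hv T hT]
          simp
        · exact (ih T.card (by omega) T rfl (v T)).1 a
      have hF1' : ∀ v ∈ filt k m N S'.card, ∀ i, Φ (ρ.r1 (y i) v) = s1 (y i) (Φ v) := by
        intro v hv i
        have hsum : v = ∑ T, Pi.single T (v T) := (Finset.univ_sum_single v).symm
        rw [hsum]
        simp only [map_sum]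
        refine Finset.sum_congr rfl fun T _ => ?_
        by_cases hT : S'.card < T.card
        · rw [hv T hT]
          simp
        · exact (ih T.card (by omega) T rfl (v T)).2 i
      have hF1 : ∀ v ∈ filt k m N S'.card, ∀ x, Φ (ρ.r1 x v) = s1 x (Φ v) := by
        intro v hv x
        rw [r1_expand ρ.r1 x y v, r1_expand s1 x y (Φ v), map_sum]
        refine Finset.sum_congr rfl fun i _ => ?_
        rw [map_smul, hF1' v hv i]
      have hΦS : Φ (Pi.single S n) = s1 (y j) (Φ w) := by
        rw [← hyw]
        exact hA j S' n hjS'
      refine ⟨fun a => ?_, fun i => ?_⟩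
      · have h1 := congrArg (fun f : Module.End k _ => f w) (ρ.h01 a (y j))
        simp only [LinearMap.sub_apply, Module.End.mul_apply] at h1
        have h2' := congrArg (fun f : Module.End k _ => f (Φ w)) (hs01 a (y j))
        simp only [LinearMap.sub_apply, Module.End.mul_apply] at h2'
        rw [← hyw]
        have h3 : ρ.r0 a (ρ.r1 (y j) w) = ρ.r1 (L.b01 a (y j)) w + ρ.r1 (y j) (ρ.r0 a w) := by
          rw [h1]; abel
        rw [h3, map_add, hF1 w hwf, hF1 _ (hIf a _ w hwf), hF0 w hwf, hyw, hΦS, h2']
        abel
      · rcases lt_trichotomy i j with hij | hij | hij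
        · refine hA i S n fun l hl => lt_of_lt_of_le hij (S.min'_le l hl)
        · rw [hij]
          have h1 := congrArg (fun f : Module.End k _ => f w) (ρ.h11 (y j) (y j))
          simp only [LinearMap.add_apply, Module.End.mul_apply] at h1
          have h2' := congrArg (fun f : Module.End k _ => f (Φ w)) (hs11 (y j) (y j))
          simp only [LinearMap.add_apply, Module.End.mul_apply] at h2'
          have h3 : (2 : k) • Φ (ρ.r1 (y j) (Pi.single S n)) = (2 : k) • s1 (y j) (Φ (Pi.single S n)) := by
            rw [two_smul, two_smul, ← hyw, ← map_add, ← h1, hF0 w hwf, hyw, hΦS, h2']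
          have h4 := smul_right_injective M h2 h3
          exact h4
        · have h1 := congrArg (fun f : Module.End k _ => f w) (ρ.h11 (y i) (y j))
          simp only [LinearMap.add_apply, Module.End.mul_apply] at h1
          have h2' := congrArg (fun f : Module.End k _ => f (Φ w)) (hs11 (y i) (y j))
          simp only [LinearMap.add_apply, Module.End.mul_apply] at h2'
          have hB : Φ (ρ.r1 (y j) (ρ.r1 (y i) w)) = s1 (y j) (s1 (y i) (Φ w)) := by
            have e1 : ρ.r1 (y i) w = eop k m N i w + (ρ.r1 (y i) w - eop k m N i w) := by abel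
            have e2 : Φ (ρ.r1 (y j) (eop k m N i w)) = s1 (y j) (Φ (eop k m N i w)) := by
              by_cases hiS : i ∈ S'
              · have : eop k m N i w = 0 := by
                  funext T
                  rw [eop_apply]
                  by_cases hT : i ∈ T
                  · rw [if_pos hT, hw, Pi.single_eq_of_ne, smul_zero, Pi.zero_apply]
                    intro h
                    rw [← h] at hiS
                    exact Finset.notMem_erase i T hiS
                  · rw [if_neg hT, Pi.zero_apply]
                rw [this]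
                simp
              · obtain ⟨c, hc⟩ : ∃ c : k, eop k m N i w = Pi.single (insert i S') (c • n) := by
                  refine ⟨(-1 : k) ^ ((insert i S').filter (fun j => j < i)).card, ?_⟩
                  funext T
                  rw [eop_apply]
                  by_cases hT : i ∈ T
                  · rw [if_pos hT]
                    by_cases hTS : T = insert i S'
                    · rw [hTS, Finset.erase_insert hiS, hw, Pi.single_eq_same, Pi.single_eq_same]
                    · rw [Pi.single_eq_of_ne hTS, hw, Pi.single_eq_of_ne, smul_zero]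
                      intro h
                      apply hTS
                      rw [← h, Finset.insert_erase hT]
                  · rw [if_neg hT, Pi.single_eq_of_ne]
                    rintro rfl
                    exact hT (Finset.mem_insert_self _ _)
                rw [hc]
                refine hA j _ _ ?_
                intro l hl
                rcases Finset.mem_insert.1 hl with rfl | hl
                · exact hij
                · exact hjS' l hl
            rw [e1, map_add, map_add, e2, hF1 _ (hIe i _ w hwf), ← map_add, ← map_add, ← e1,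
              hF1 w hwf]
          have h3 : ρ.r1 (y i) (ρ.r1 (y j) w) =
              ρ.r0 (L.b11 (y i) (y j)) w - ρ.r1 (y j) (ρ.r1 (y i) w) := by
            rw [h1]; abel
          rw [← hyw, h3, map_sub, hF0 w hwf, hB, hyw, hΦS, h2']
          abel
  refine ⟨Φ, ⟨?_, ?_, ?_⟩, ?_⟩
  · intro n
    rw [hΦ, Phi_single, psi_empty]
  · intro a v
    have hsum : v = ∑ T, Pi.single T (v T) := (Finset.univ_sum_single v).symm
    rw [hsum]
    simp only [map_sum]
    exact Finset.sum_congr rfl fun T _ => (key T.card T rfl (v T)).1 a
  · intro x v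
    rw [r1_expand ρ.r1 x y v, r1_expand s1 x y (Φ v), map_sum]
    refine Finset.sum_congr rfl fun i _ => ?_
    rw [map_smul]
    congr 1
    have hsum : v = ∑ T, Pi.single T (v T) := (Finset.univ_sum_single v).symm
    rw [hsum]
    simp only [map_sum]
    exact Finset.sum_congr rfl fun T _ => (key T.card T rfl (v T)).2 i
  · rintro Ψ ⟨hΨ0, _, hΨ2⟩
    apply LinearMap.pi_ext
    intro S
    induction S using Finset.induction_on_min with
    | empty =>
      intro n
      rw [hΨ0, hΦ, Phi_single, psi_empty]
    | insert a s ha ihs =>
      intro n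
      rw [← hI1 a s n ha, hΨ2, ihs n, ← hA a s n ha]

end Pool.Agent.U796.SV.UNI
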